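import Mathlib

/-!
# A conditionally flat localization functor on groups that is not an epireflection

The functor `G ↦ ℚ ⊗ G_ab` (rationalized abelianization), with `g ↦ 1 ⊗ [g]`, is a localization
functor, it is right exact, hence conditionally flat, and it is not an epireflection.
-/

open CategoryTheory TensorProduct

universe u

namespace Pool.Agent.Results.MP_52d248_al.RationalAb

/-- `(L, η)` is a localization functor: `L(η_G) = η_{LG}` and this map is an isomorphism. -/
structure IsLocalization (L : GrpCat.{u} ⥤ GrpCat.{u}) (η : 𝟭 GrpCat.{u} ⟶ L) : Prop where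
  map_eq : ∀ G : GrpCat.{u}, L.map (η.app G) = η.app (L.obj G)
  isIso : ∀ G : GrpCat.{u}, IsIso (η.app (L.obj G))

/-- `1 → N → E → G → 1` (maps `i` and `p`) is a short exact sequence of groups. -/
structure IsExtension {N E G : GrpCat.{u}} (i : N ⟶ E) (p : E ⟶ G) : Prop where
  injective : Function.Injective i.hom
  surjective : Function.Surjective p.hom
  exact : i.hom.range = p.hom.ker

/-- The sequence with maps `i`, `p` stays short exact after applying `L`. -/
def IsFlat (L : GrpCat.{u} ⥤ GrpCat.{u}) {N E G : GrpCat.{u}} (i : N ⟶ E) (p : E ⟶ G) : Prop :=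
  IsExtension (L.map i) (L.map p)

/-- The fibre product `E ×_G H` of groups, as the subgroup of `E × H` of all `(e, h)` with
`p e = f h`. -/
def fiberProduct {E G H : GrpCat.{u}} (p : E ⟶ G) (f : H ⟶ G) : GrpCat.{u} :=
  GrpCat.of ((p.hom.comp (MonoidHom.fst E H)).eqLocus (f.hom.comp (MonoidHom.snd E H)))

/-- The inclusion `N → E ×_G H`, `n ↦ (i n, 1)`, of the pulled-back extension. -/
def pullIncl {N E G H : GrpCat.{u}} {i : N ⟶ E} {p : E ⟶ G} (h : IsExtension i p) (f : H ⟶ G) :
    N ⟶ fiberProduct p f :=
  GrpCat.ofHom ((MonoidHom.inl E H).comp i.hom |>.codRestrict _ (fun n => by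
    have h1 : p.hom (i.hom n) = 1 := by
      have : i.hom n ∈ p.hom.ker := h.exact ▸ ⟨n, rfl⟩
      exact this
    show p.hom (i.hom n) = f.hom 1
    rw [h1, map_one]))

/-- The projection `E ×_G H → H`, `(e, h) ↦ h`, of the pulled-back extension. -/
def pullProj {E G H : GrpCat.{u}} (p : E ⟶ G) (f : H ⟶ G) : fiberProduct p f ⟶ H :=
  GrpCat.ofHom ((MonoidHom.snd E H).comp
    ((p.hom.comp (MonoidHom.fst E H)).eqLocus (f.hom.comp (MonoidHom.snd E H))).subtype)

/-- `L` is conditionally flat: for every `L`-flat extension `1 → N → E → G → 1` and every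
homomorphism `f : H → G`, the pulled-back extension `1 → N → E ×_G H → H → 1` is `L`-flat. -/
def ConditionallyFlat (L : GrpCat.{u} ⥤ GrpCat.{u}) : Prop :=
  ∀ (N E G H : GrpCat.{u}) (i : N ⟶ E) (p : E ⟶ G) (h : IsExtension i p) (f : H ⟶ G),
    IsFlat L i p → IsFlat L (pullIncl h f) (pullProj p f)

/-! ### The functor -/

/-- The underlying module `ℚ ⊗ G_ab`. -/
abbrev QM (G : Type u) [Group G] : Type u := ℚ ⊗[ℤ] Additive (Abelianization G)

/-- The map `G_ab → H_ab` as a linear map over the integers. -/
noncomputable def abMap {G H : Type u} [Group G] [Group H] (f : G →* H) :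
    Additive (Abelianization G) →ₗ[ℤ] Additive (Abelianization H) :=
  (MonoidHom.toAdditive (Abelianization.map f)).toIntLinearMap

lemma abMap_of {G H : Type u} [Group G] [Group H] (f : G →* H) (g : G) :
    abMap f (Additive.ofMul (Abelianization.of g)) = Additive.ofMul (Abelianization.of (f g)) :=
  rfl

lemma abMap_id (G : Type u) [Group G] : abMap (MonoidHom.id G) = LinearMap.id := by
  ext x
  induction x using Additive.rec with
  | ofMul x =>
    obtain ⟨g, rfl⟩ := QuotientGroup.mk_surjective x
    rfl

lemma abMap_comp {G H K : Type u} [Group G] [Group H] [Group K] (f : G →* H) (g : H →* K) :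
    abMap (g.comp f) = (abMap g).comp (abMap f) := by
  ext x
  induction x using Additive.rec with
  | ofMul x =>
    obtain ⟨g, rfl⟩ := QuotientGroup.mk_surjective x
    rfl

/-- The linear map `ℚ ⊗ G_ab → ℚ ⊗ H_ab`. -/
noncomputable def qMap {G H : Type u} [Group G] [Group H] (f : G →* H) : QM G →ₗ[ℤ] QM H :=
  LinearMap.lTensor ℚ (abMap f)

lemma qMap_tmul {G H : Type u} [Group G] [Group H] (f : G →* H) (q : ℚ)
    (x : Additive (Abelianization G)) : qMap f (q ⊗ₜ[ℤ] x) = q ⊗ₜ[ℤ] abMap f x :=
  LinearMap.lTensor_tmul ℚ (abMap f) q x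

lemma qMap_id (G : Type u) [Group G] (x : QM G) : qMap (MonoidHom.id G) x = x := by
  rw [qMap, abMap_id, LinearMap.lTensor_id]
  rfl

lemma qMap_comp {G H K : Type u} [Group G] [Group H] [Group K] (f : G →* H) (g : H →* K)
    (x : QM G) : qMap (g.comp f) x = qMap g (qMap f x) := by
  rw [qMap, abMap_comp, LinearMap.lTensor_comp]
  rfl

/-- The homomorphism `ℚ ⊗ G_ab → ℚ ⊗ H_ab`, written multiplicatively. -/
noncomputable def lHom {G H : Type u} [Group G] [Group H] (f : G →* H) :
    Multiplicative (QM G) →* Multiplicative (QM H) where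
  toFun x := Multiplicative.ofAdd (qMap f (Multiplicative.toAdd x))
  map_one' := by rw [toAdd_one, map_zero, ofAdd_zero]
  map_mul' a b := by rw [toAdd_mul, map_add, ofAdd_add]

lemma lHom_apply {G H : Type u} [Group G] [Group H] (f : G →* H) (x : Multiplicative (QM G)) :
    lHom f x = Multiplicative.ofAdd (qMap f (Multiplicative.toAdd x)) := rfl

/-- The rationalized abelianization functor. -/
noncomputable def L : GrpCat.{u} ⥤ GrpCat.{u} where
  obj G := GrpCat.of (Multiplicative (QM G))
  map f := GrpCat.ofHom (lHom f.hom)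
  map_id G := by
    apply GrpCat.hom_ext
    apply MonoidHom.ext
    intro x
    rw [GrpCat.hom_ofHom, lHom_apply, GrpCat.hom_id, qMap_id]
    rfl
  map_comp f g := by
    apply GrpCat.hom_ext
    apply MonoidHom.ext
    intro x
    rw [GrpCat.hom_ofHom, lHom_apply, GrpCat.hom_comp, qMap_comp]
    rfl

/-- The coaugmentation `g ↦ 1 ⊗ [g]`, as a homomorphism. -/
noncomputable def etaHom (G : Type u) [Group G] : G →* Multiplicative (QM G) where
  toFun g := Multiplicative.ofAdd ((1 : ℚ) ⊗ₜ[ℤ] Additive.ofMul (Abelianization.of g))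
  map_one' := by
    rw [map_one, ofMul_one, TensorProduct.tmul_zero, ofAdd_zero]
  map_mul' a b := by
    rw [map_mul, ofMul_mul, TensorProduct.tmul_add, ofAdd_add]

lemma etaHom_apply (G : Type u) [Group G] (g : G) :
    etaHom G g = Multiplicative.ofAdd ((1 : ℚ) ⊗ₜ[ℤ] Additive.ofMul (Abelianization.of g)) := rfl

/-- The coaugmentation. -/
noncomputable def η : 𝟭 GrpCat.{u} ⟶ L.{u} where
  app G := GrpCat.ofHom (etaHom G)
  naturality G H f := by
    apply GrpCat.hom_ext
    apply MonoidHom.ext
    intro x
    rfl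

/-! ### It is a localization functor -/

/-- In `ℚ ⊗ W_ab` for `W` a rational vector space, scalars can be moved across. -/
lemma move {W : Type u} [AddCommGroup W] [Module ℚ W] (q : ℚ) (w : W) :
    (q ⊗ₜ[ℤ] Additive.ofMul (Abelianization.of (Multiplicative.ofAdd w)) : QM (Multiplicative W)) =
      (1 : ℚ) ⊗ₜ[ℤ] Additive.ofMul (Abelianization.of (Multiplicative.ofAdd (q • w))) := by
  -- the additive map `w ↦ [w]`
  let ι : W →+ Additive (Abelianization (Multiplicative W)) :=
    { toFun := fun w => Additive.ofMul (Abelianization.of (Multiplicative.ofAdd w))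
      map_zero' := by rw [ofAdd_zero, map_one, ofMul_one]
      map_add' := fun a b => by rw [ofAdd_add, map_mul, ofMul_mul] }
  have hι : ∀ w, Additive.ofMul (Abelianization.of (Multiplicative.ofAdd w)) = ι w := fun _ => rfl
  rw [hι, hι]
  -- write `w = q.den • w'`
  set w' : W := ((q.den : ℚ)⁻¹) • w with hw'
  have hden : (q.den : ℚ) ≠ 0 := by exact_mod_cast q.den_ne_zero
  have h1 : w = (q.den : ℤ) • w' := by
    rw [hw', ← Int.cast_smul_eq_zsmul ℚ, smul_smul, Int.cast_natCast, mul_inv_cancel₀ hden,
      one_smul]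
  have h2 : q • w = q.num • w' := by
    rw [hw', ← Int.cast_smul_eq_zsmul ℚ, smul_smul]
    congr 1
    rw [← div_eq_mul_inv, Rat.num_div_den]
  rw [h2, map_zsmul, TensorProduct.tmul_smul, TensorProduct.smul_tmul']
  conv_lhs => rw [h1, map_zsmul, TensorProduct.tmul_smul, TensorProduct.smul_tmul']
  congr 1
  rw [zsmul_eq_mul, zsmul_eq_mul, mul_one, Int.cast_natCast, mul_comm, Rat.mul_den_eq_num]

/-- The retraction `ℚ ⊗ W_ab → W` for `W` a rational vector space. -/
noncomputable def retr (W : Type u) [AddCommGroup W] [Module ℚ W] :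
    QM (Multiplicative W) →ₗ[ℤ] W :=
  TensorProduct.lift (LinearMap.mk₂ ℤ
    (fun (q : ℚ) (x : Additive (Abelianization (Multiplicative W))) =>
      q • Multiplicative.toAdd
        (Abelianization.lift (MonoidHom.id (Multiplicative W)) (Additive.toMul x)))
    (fun a b x => add_smul a b _)
    (fun c a x => by
      rw [zsmul_eq_mul, mul_smul, Int.cast_smul_eq_zsmul])
    (fun a x y => by
      rw [toMul_add, map_mul, toAdd_mul, smul_add])
    (fun c a x => by
      rw [toMul_zsmul, map_zpow, toAdd_zpow, smul_comm]))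

lemma retr_eta (W : Type u) [AddCommGroup W] [Module ℚ W] (w : W) :
    retr W ((1 : ℚ) ⊗ₜ[ℤ] Additive.ofMul (Abelianization.of (Multiplicative.ofAdd w))) = w := by
  have h : retr W ((1 : ℚ) ⊗ₜ[ℤ] Additive.ofMul (Abelianization.of (Multiplicative.ofAdd w))) =
    (1 : ℚ) • w := rfl
  rw [h, one_smul]

lemma eta_bijective (W : Type u) [AddCommGroup W] [Module ℚ W] :
    Function.Bijective (etaHom (Multiplicative W)) := by
  constructor
  · intro a b hab
    have h1 := congrArg (fun x => retr W (Multiplicative.toAdd x)) hab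
    simp only [etaHom_apply, toAdd_ofAdd] at h1
    have h2 := retr_eta W (Multiplicative.toAdd a)
    have h3 := retr_eta W (Multiplicative.toAdd b)
    rw [ofAdd_toAdd] at h2 h3
    rw [h2, h3] at h1
    exact Multiplicative.toAdd.injective h1
  · intro x
    have : ∀ y : QM (Multiplicative W), ∃ w : Multiplicative W,
        etaHom (Multiplicative W) w = Multiplicative.ofAdd y := by
      intro y
      induction y using TensorProduct.induction_on with
      | zero => exact ⟨1, by rw [map_one, ofAdd_zero]⟩
      | tmul q x =>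
        obtain ⟨w, hw⟩ := QuotientGroup.mk_surjective (Additive.toMul x)
        refine ⟨Multiplicative.ofAdd (q • Multiplicative.toAdd w), ?_⟩
        rw [etaHom_apply, ← move q (Multiplicative.toAdd w), ofAdd_toAdd]
        congr 2
      | add a b ha hb =>
        obtain ⟨v, hv⟩ := ha
        obtain ⟨w, hw⟩ := hb
        exact ⟨v * w, by rw [map_mul, hv, hw, ofAdd_add]⟩
    obtain ⟨w, hw⟩ := this (Multiplicative.toAdd x)
    exact ⟨w, by rw [hw, ofAdd_toAdd]⟩

lemma ofMul_of_surjective {G : Type u} [Group G] (x : Additive (Abelianization G)) :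
    ∃ g : G, x = Additive.ofMul (Abelianization.of g) := by
  obtain ⟨g, hg⟩ := QuotientGroup.mk_surjective (Additive.toMul x)
  exact ⟨g, (congrArg Additive.ofMul hg).symm⟩

lemma lHom_etaHom (G : Type u) [Group G] (x : QM G) :
    lHom (etaHom G) (Multiplicative.ofAdd x) =
      etaHom (Multiplicative (QM G)) (Multiplicative.ofAdd x) := by
  rw [lHom_apply, etaHom_apply]
  congr 1
  rw [toAdd_ofAdd]
  induction x using TensorProduct.induction_on with
  | zero => rw [map_zero, ofAdd_zero, map_one, ofMul_one, TensorProduct.tmul_zero]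
  | tmul q x =>
    obtain ⟨g, rfl⟩ := ofMul_of_surjective x
    rw [qMap_tmul, abMap_of, etaHom_apply, move]
    congr 4
    rw [TensorProduct.smul_tmul', smul_eq_mul, mul_one]
  | add a b ha hb =>
    rw [map_add, ha, hb, ofAdd_add, map_mul, ofMul_mul, TensorProduct.tmul_add]

lemma isLocalization : IsLocalization L.{u} η.{u} where
  map_eq G := by
    apply GrpCat.hom_ext
    apply MonoidHom.ext
    intro x
    exact lHom_etaHom G (Multiplicative.toAdd x)
  isIso G := by
    have h := eta_bijective (QM G)
    have : (η.app (L.obj G)) =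
        (MulEquiv.ofBijective (etaHom (Multiplicative (QM G))) h).toGrpIso.hom := by
      apply GrpCat.hom_ext
      apply MonoidHom.ext
      intro x
      rfl
    rw [this]
    infer_instance

/-! ### Right exactness and conditional flatness -/

lemma lHom_exact {N E G : Type u} [Group N] [Group E] [Group G] (i : N →* E) (p : E →* G)
    (hp : Function.Surjective p) (hex : i.range = p.ker) :
    Function.Surjective (lHom p) ∧ (lHom i).range = (lHom p).ker := by
  have hs : Function.Surjective (abMap p) := by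
    intro x
    obtain ⟨g, rfl⟩ := ofMul_of_surjective x
    obtain ⟨e, he⟩ := hp g
    exact ⟨Additive.ofMul (Abelianization.of e), by rw [abMap_of, he]⟩
  have hp1 : ∀ n, p (i n) = 1 := fun n => by
    have : i n ∈ p.ker := hex ▸ ⟨n, rfl⟩
    exact this
  have he : Function.Exact (abMap i) (abMap p) := by
    intro x
    constructor
    · intro hx
      obtain ⟨e, rfl⟩ := ofMul_of_surjective x
      rw [abMap_of, ofMul_eq_zero] at hx
      have hk : p e ∈ commutator G := by
        rw [← Abelianization.ker_of]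
        exact hx
      have hc : commutator G = (commutator E).map p := by
        rw [commutator_def, commutator_def, Subgroup.map_commutator,
          Subgroup.map_top_of_surjective _ hp]
      rw [hc] at hk
      obtain ⟨c, hc, hce⟩ := hk
      have hker : c⁻¹ * e ∈ p.ker := by
        rw [MonoidHom.mem_ker, map_mul, map_inv, hce, inv_mul_cancel]
      rw [← hex] at hker
      obtain ⟨n, hn⟩ := hker
      refine ⟨Additive.ofMul (Abelianization.of n), ?_⟩
      rw [abMap_of, hn, map_mul, map_inv]
      have : Abelianization.of c = 1 := by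
        rw [← MonoidHom.mem_ker, Abelianization.ker_of]
        exact hc
      rw [this, inv_one, one_mul]
    · rintro ⟨y, rfl⟩
      obtain ⟨n, rfl⟩ := ofMul_of_surjective y
      rw [abMap_of, abMap_of, hp1, map_one, ofMul_one]
  have hq : ∀ x : QM E, qMap p x = 0 ↔ ∃ y, qMap i y = x := lTensor_exact ℚ he hs
  have hsu : Function.Surjective (qMap p) := LinearMap.lTensor_surjective ℚ hs
  constructor
  · intro x
    obtain ⟨y, hy⟩ := hsu (Multiplicative.toAdd x)
    exact ⟨Multiplicative.ofAdd y, by rw [lHom_apply, toAdd_ofAdd, hy, ofAdd_toAdd]⟩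
  · ext x
    rw [MonoidHom.mem_ker, MonoidHom.mem_range, lHom_apply, ofAdd_eq_one, hq]
    constructor
    · rintro ⟨y, rfl⟩
      exact ⟨Multiplicative.toAdd y, by rw [lHom_apply, toAdd_ofAdd]⟩
    · rintro ⟨y, hy⟩
      exact ⟨Multiplicative.ofAdd y, by rw [lHom_apply, toAdd_ofAdd, hy, ofAdd_toAdd]⟩

lemma lExact {N E G : GrpCat.{u}} {i : N ⟶ E} {p : E ⟶ G} (h : IsExtension i p) :
    Function.Surjective (L.map p).hom ∧ (L.map i).hom.range = (L.map p).hom.ker :=
  lHom_exact i.hom p.hom h.surjective h.exact

/-- The pulled-back sequence is an extension. -/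
lemma pull_isExtension {N E G H : GrpCat.{u}} {i : N ⟶ E} {p : E ⟶ G} (h : IsExtension i p)
    (f : H ⟶ G) : IsExtension (pullIncl h f) (pullProj p f) where
  injective a b hab := by
    apply h.injective
    exact congrArg (fun x => x.1.1) hab
  surjective x := by
    obtain ⟨e, he⟩ := h.surjective (f.hom x)
    exact ⟨⟨(e, x), he⟩, rfl⟩
  exact := by
    ext x
    rw [MonoidHom.mem_ker, MonoidHom.mem_range]
    constructor
    · rintro ⟨y, rfl⟩
      rfl
    · intro hx
      have hx2 : x.1.2 = 1 := hx
      have hx1 : p.hom x.1.1 = f.hom x.1.2 := x.2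
      rw [hx2, map_one] at hx1
      have : x.1.1 ∈ i.hom.range := by
        rw [h.exact]; exact hx1
      obtain ⟨n, hn⟩ := this
      refine ⟨n, ?_⟩
      apply Subtype.ext
      apply Prod.ext
      · exact hn
      · exact hx2.symm

lemma conditionallyFlat : ConditionallyFlat L.{u} := by
  intro N E G H i p h f hflat
  obtain ⟨h1, h2⟩ := lExact (pull_isExtension h f)
  refine ⟨?_, h1, h2⟩
  let pr : fiberProduct p f ⟶ E := GrpCat.ofHom ((MonoidHom.fst E H).comp
    ((p.hom.comp (MonoidHom.fst E H)).eqLocus (f.hom.comp (MonoidHom.snd E H))).subtype)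
  have hcomp : pullIncl h f ≫ pr = i := by
    apply GrpCat.hom_ext
    apply MonoidHom.ext
    intro x
    rfl
  have hi := hflat.injective
  rw [← hcomp, L.map_comp, GrpCat.hom_comp] at hi
  intro a b hab
  apply hi
  rw [MonoidHom.comp_apply, MonoidHom.comp_apply, hab]

/-! ### It is not an epireflection -/

lemma not_surjective : ¬ Function.Surjective (η.app (GrpCat.of (ULift.{u} (Multiplicative ℤ)))).hom := by
  intro hs
  let A := ULift.{u} (Multiplicative ℤ)
  let φ : A →* Multiplicative ℚ :=
    (AddMonoidHom.toMultiplicative (Int.castAddHom ℚ)).comp MulEquiv.ulift.toMonoidHom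
  let ψ : QM A →ₗ[ℤ] ℚ := TensorProduct.lift (LinearMap.mk₂ ℤ
    (fun (q : ℚ) (x : Additive (Abelianization A)) =>
      q * Multiplicative.toAdd (Abelianization.lift φ (Additive.toMul x)))
    (fun a b x => add_mul a b _)
    (fun c a x => by rw [smul_mul_assoc])
    (fun a x y => by rw [toMul_add, map_mul, toAdd_mul, mul_add])
    (fun c a x => by rw [toMul_zsmul, map_zpow, toAdd_zpow, mul_smul_comm]))
  let a : A := ULift.up (Multiplicative.ofAdd 1)
  obtain ⟨n, hn⟩ := hs (Multiplicative.ofAdd
    ((1 / 2 : ℚ) ⊗ₜ[ℤ] Additive.ofMul (Abelianization.of a)))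
  have hn' : (1 : ℚ) ⊗ₜ[ℤ] Additive.ofMul (Abelianization.of (n : A)) =
      (1 / 2 : ℚ) ⊗ₜ[ℤ] Additive.ofMul (Abelianization.of a) :=
    Multiplicative.ofAdd.injective hn
  have h2 := congrArg ψ hn'
  have hψ : ∀ (q : ℚ) (m : A), ψ (q ⊗ₜ[ℤ] Additive.ofMul (Abelianization.of m)) =
      q * ((Multiplicative.toAdd m.down : ℤ) : ℚ) := by
    intro q m
    rfl
  rw [hψ, hψ] at h2
  have h3 : ((Multiplicative.toAdd (n : A).down : ℤ) : ℚ) = 1 / 2 := by
    have : ((Multiplicative.toAdd a.down : ℤ) : ℚ) = 1 := by
      show (((1 : ℤ)) : ℚ) = 1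
      norm_num
    rw [this] at h2
    linarith
  have h4 : (((2 : ℤ) * Multiplicative.toAdd (n : A).down : ℤ) : ℚ) = ((1 : ℤ) : ℚ) := by
    push_cast
    rw [h3]
    norm_num
  have h5 : (2 : ℤ) * Multiplicative.toAdd (n : A).down = 1 := by exact_mod_cast h4
  omega

/-- There is a conditionally flat localization functor on the category of groups that is not an
epireflection. -/
theorem result : ∃ (L : GrpCat.{u} ⥤ GrpCat.{u}) (η : 𝟭 GrpCat.{u} ⟶ L),
    IsLocalization L η ∧ ConditionallyFlat L ∧
      ¬ ∀ G : GrpCat.{u}, Function.Surjective (η.app G).hom :=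
  ⟨L, η, isLocalization, conditionallyFlat, fun h => not_surjective (h _)⟩

end Pool.Agent.Results.MP_52d248_al.RationalAb
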